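import Pool.Agent.S5.K3.Lf.AA1
import Pool.Agent.S5.K3.Lf.AA2
import Pool.Agent.S5.K3.Lf.AA3
import Pool.Agent.S5.K3.Lf.SA1
import Pool.Agent.S5.K3.Lf.SA2
import Pool.Agent.S5.K3.Lf.SA3
import Pool.Agent.S5.K3.Lf.SA4
import Pool.Agent.S5.K3.Lf.SA5
import Pool.Agent.S5.K3.Lf.SA6
import Pool.Agent.S5.K3.Lf.SA7
import Pool.Agent.S5.K3.Lf.SA8
import Pool.Agent.S5.K3.Lf.SA9
import Pool.Agent.S5.K3.Lf.SA10
import Pool.Agent.S5.K3.Lf.SS1
import Pool.Agent.S5.K3.Lf.SS2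
import Pool.Agent.S5.K3.Lf.SS3
import Pool.Agent.S5.K3.Lf.SS4
import Pool.Agent.S5.K3.Lf.SS5
import Pool.Agent.S5.K3.Lf.SS6

/-!
# Nodes with three half twists: all groups
-/

set_option autoImplicit false

namespace Pool.Agent.S5.K3

/-- All groups. -/
def gAll : List GD :=
  [gAA2020, gAA2021, gAA2121, gAA3020, gAA3021, gAA3030,
    gAA3120, gAA3121, gAA3130, gAA3131, gAA4020, gAA4021,
    gAA4030, gAA4031, gAA4040, gAA4041, gAA4120, gAA4121,
    gAA4130, gAA4131, gAA4140, gAA4141, gAA5020, gAA5021,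
    gAA5030, gAA5031, gAA5040, gAA5041, gAA5050, gAA6020,
    gAA6021, gAA6030, gAA6031, gAA6040, gAA6041, gAA6050,
    gAA6060, gSA2020, gSA2020b, gSA2021, gSA2030, gSA2031,
    gSA2040, gSA2041, gSA2050, gSA2060, gSA3020, gSA3020b,
    gSA3021, gSA3030, gSA3031, gSA3040, gSA3041, gSA3050,
    gSA3060, gSA3120, gSA3121, gSA3130, gSA3131, gSA3140,
    gSA3141, gSA3150, gSA3160, gSA4020, gSA4021, gSA4030,
    gSA4031, gSA4040, gSA4041, gSA4050, gSA4060, gSA4120,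
    gSA4121, gSA4130, gSA4131, gSA4140, gSA4141, gSA4150,
    gSA4160, gSA5020, gSA5021, gSA5030, gSA5031, gSA5040,
    gSA5041, gSA5050, gSA5060, gSA6020, gSA6021, gSA6030,
    gSA6031, gSA6040, gSA6041, gSA6050, gSA6060, gSS2030,
    gSS2030b, gSS2040, gSS2041, gSS2050, gSS2060, gSS3030,
    gSS3030b, gSS3040, gSS3041, gSS3050, gSS3060, gSS3120,
    gSS3130, gSS3131, gSS3140, gSS3141, gSS3150, gSS3160,
    gSS4040, gSS4041, gSS4050, gSS4060, gSS4140, gSS4141,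
    gSS4150, gSS4160, gSS5050, gSS5060, gSS6060]

theorem gAll_ok : ∀ g ∈ gAll, g.Ok := by
  unfold gAll
  simp only [List.forall_mem_cons]
  exact ⟨oAA2020, oAA2021, oAA2121, oAA3020, oAA3021, oAA3030,
    oAA3120, oAA3121, oAA3130, oAA3131, oAA4020, oAA4021,
    oAA4030, oAA4031, oAA4040, oAA4041, oAA4120, oAA4121,
    oAA4130, oAA4131, oAA4140, oAA4141, oAA5020, oAA5021,
    oAA5030, oAA5031, oAA5040, oAA5041, oAA5050, oAA6020,
    oAA6021, oAA6030, oAA6031, oAA6040, oAA6041, oAA6050,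
    oAA6060, oSA2020, oSA2020b, oSA2021, oSA2030, oSA2031,
    oSA2040, oSA2041, oSA2050, oSA2060, oSA3020, oSA3020b,
    oSA3021, oSA3030, oSA3031, oSA3040, oSA3041, oSA3050,
    oSA3060, oSA3120, oSA3121, oSA3130, oSA3131, oSA3140,
    oSA3141, oSA3150, oSA3160, oSA4020, oSA4021, oSA4030,
    oSA4031, oSA4040, oSA4041, oSA4050, oSA4060, oSA4120,
    oSA4121, oSA4130, oSA4131, oSA4140, oSA4141, oSA4150,
    oSA4160, oSA5020, oSA5021, oSA5030, oSA5031, oSA5040,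
    oSA5041, oSA5050, oSA5060, oSA6020, oSA6021, oSA6030,
    oSA6031, oSA6040, oSA6041, oSA6050, oSA6060, oSS2030,
    oSS2030b, oSS2040, oSS2041, oSS2050, oSS2060, oSS3030,
    oSS3030b, oSS3040, oSS3041, oSS3050, oSS3060, oSS3120,
    oSS3130, oSS3131, oSS3140, oSS3141, oSS3150, oSS3160,
    oSS4040, oSS4041, oSS4050, oSS4060, oSS4140, oSS4141,
    oSS4150, oSS4160, oSS5050, oSS5060, oSS6060,
    fun _ h => absurd h List.not_mem_nil⟩

end Pool.Agent.S5.K3
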